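import Mathlib
import Pool.Agent.TP975.RP.Eh9

/-!
The Elliott–Halberstam conjecture for the prime values of almost all polynomials of degree `d`, with level `d / (d + 1)`.
-/

set_option autoImplicit false

namespace Pool.Agent.Results.MP_a78e8f_nt.PrimeValuesOfPolynomials

open Finset
open scoped NNReal

/-- the value at `t` of the polynomial with the coefficients `f 0, ..., f d` -/
def value {d : ℕ} (f : Fin (d + 1) → ℤ) (t : ℤ) : ℤ := ∑ c, f c * t ^ (c : ℕ)

/-- the polynomials of degree at most `d` with coefficients in `[-H, H]` -/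
noncomputable def box (d H : ℕ) : Finset (Fin (d + 1) → ℤ) := Fintype.piFinset fun _ => Icc (-(H : ℤ)) H

/-- the number of `1 ≤ m ≤ y` with `m ≡ c` modulo `q` for which `|f(m)|` is a prime -/
def primesIn {d : ℕ} (f : Fin (d + 1) → ℤ) (q c y : ℕ) : ℕ :=
  ((Icc 1 y).filter (fun m : ℕ => m ≡ c [MOD q] ∧ (value f (m : ℤ)).natAbs.Prime)).card

/-- the number of `1 ≤ m ≤ y` for which `|f(m)|` is a prime -/
def primesUpTo {d : ℕ} (f : Fin (d + 1) → ℤ) (y : ℕ) : ℕ :=
  ((Icc 1 y).filter (fun m : ℕ => (value f (m : ℤ)).natAbs.Prime)).card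

/-- the residue classes modulo `q` on which the values of `f` are coprime to `q` -/
def classes {d : ℕ} (f : Fin (d + 1) → ℤ) (q : ℕ) : Finset ℕ :=
  (Icc 1 q).filter (fun c : ℕ => (value f (c : ℤ)).natAbs.Coprime q)

/-- the maximum, over the `y ≤ X` and over the residue classes `c` modulo `q` on which the values of `f` are coprime to
`q`, of `|primesIn f q c y - primesUpTo f y / #classes|` (it is `0` if there is no such class) -/
noncomputable def maxError {d : ℕ} (f : Fin (d + 1) → ℤ) (X q : ℕ) : ℝ≥0 :=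
  (range (X + 1) ×ˢ classes f q).sup
    (fun t => ‖(primesIn f q t.2 t.1 : ℝ) - (primesUpTo f t.1 : ℝ) / (classes f q).card‖₊)

/-- the classes are those of the library -/
lemma classes_eq {d : ℕ} (f : Fin (d + 1) → ℤ) (q : ℕ) : classes f q = Pool.Agent.TP975.RP.cls f q := by
  ext c
  rw [Pool.Agent.TP975.RP.mem_cls]
  unfold classes
  rw [mem_filter]
  apply and_congr_right
  intro _
  unfold Pool.Agent.TP975.RP.Cp
  constructor
  · intro h p hp hpq hdv
    have h1 : p ∣ (value f (c : ℤ)).natAbs := Int.natCast_dvd.1 hdv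
    exact Nat.not_coprime_of_dvd_of_dvd hp.one_lt h1 hpq h
  · intro h
    apply Nat.coprime_of_dvd
    intro p hp h1 h2
    exact h p hp h2 (Int.natCast_dvd.2 h1)

open Classical in
/-- The Elliott–Halberstam conjecture with level `d / (d + 1)` for the prime values of almost all polynomials of degree
at most `d`. -/
theorem result (d A B : ℕ) (hd : 2 ≤ d) (ε : ℝ) (hε : 0 < ε) : ∃ H₀ : ℕ, ∀ H : ℕ, H₀ ≤ H →
    (((box d H).filter (fun f => ∃ X Q : ℕ, (X : ℝ) ≤ Real.log H ^ A ∧
      (Q : ℝ) ^ (d + 1) * Real.log H ^ ((d : ℝ) + ε) ≤ (X : ℝ) ^ d ∧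
      X / (Real.log H * Real.log (Real.log H) ^ B) < ∑ q ∈ Icc 1 Q, (maxError f X q : ℝ))).card : ℝ) ≤
      (box d H).card / Real.log (Real.log H) ^ B := by
  obtain ⟨H0, h0⟩ := Pool.Agent.TP975.RP.eh_main d A B hd ε hε
  refine ⟨H0, fun H hH => ?_⟩
  refine le_trans (le_of_eq ?_) (h0 H hH)
  congr 1
  congr 1
  apply filter_congr
  intro f _
  have hm : ∀ X q : ℕ, maxError f X q = Pool.Agent.TP975.RP.mxE f X q := by
    intro X q
    unfold maxError Pool.Agent.TP975.RP.mxE
    rw [classes_eq]
    apply sup_congr rfl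
    rintro ⟨y, c⟩ _
    have e1 : primesIn f q c y = Pool.Agent.TP975.RP.piq f q c y := rfl
    have e2 : primesUpTo f y = Pool.Agent.TP975.RP.piq f 1 1 y := by
      unfold primesUpTo Pool.Agent.TP975.RP.piq
      congr 1
      apply filter_congr
      intro m _
      rw [Nat.mod_one, Nat.mod_one]
      constructor
      · intro h
        exact ⟨rfl, h⟩
      · intro h
        exact h.2
    simp only [e1, e2]
  simp only [hm]

end Pool.Agent.Results.MP_a78e8f_nt.PrimeValuesOfPolynomials
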