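import Pool.Agent.helper24_UT.Ch17

set_option autoImplicit false

/-!
# The Elliott-Halberstam sum over all moduli `q ≤ x exp (-B (log log x) ^ 2)`, on average over every window of `x ^ (1/3 + ε)` residues

`∑ |π(x; q, a) - π(x) / φ(q)|`, the sum over ALL moduli `q ≤ Q` prime to `a`, with the absolute values inside, is at most
`x / (log x) ^ A` on average over the residues `a` from any interval of length `≥ x ^ (1/3 + ε)` in `[1, x]`, for all
`Q ≤ x exp (-B (log log x) ^ 2)`.

Proof. For the moduli up to `x ^ (5/6)` this is the starting file `ShortIntervalResidues` of MP_00e23e_nt. For the larger ones the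
square of the error term is summed over the residues: the primes minus their sieve model have small correlations
with their translates by the multiples of almost all `q`, on average over short windows of the
shifts, uniformly in the cut-offs (`Pool.Agent.helper24_UT.Ch.t_R22`: the mean square of the exponential sums over
the primes in short intervals by the method of Mikawa, for windows `≥ x ^ (1/3 + ε)`, and the theorem of
Barban, Davenport and Halberstam).
-/

namespace Pool.Agent.Results.MP_a78e8f_nt.ShortWindowsOfResidues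

open Finset

/-- `π(x)`: the number of the primes `p ≤ x` -/
def primePi (x : ℕ) : ℕ := ((Icc 1 x).filter (fun p => p.Prime)).card

/-- `π(x; q, a)`: the number of the primes `p ≤ x` with `p ≡ a (mod q)` -/
def primePiAP (x q a : ℕ) : ℕ := ((Icc 1 x).filter (fun p => p.Prime ∧ p ≡ a [MOD q])).card

/-- the sum of `|π(x; q, a) - π(x) / φ(q)|` over all the moduli `1 ≤ q ≤ Q` prime to `a` -/
noncomputable def total (x Q a : ℕ) : ℝ :=
  ∑ q ∈ (Icc 1 Q).filter (fun q => a.Coprime q), |(primePiAP x q a : ℝ) - (primePi x : ℝ) / Nat.totient q|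

/-- **The Elliott-Halberstam sum over all moduli up to `x exp (-B (log log x) ^ 2)` on average over short windows of residues**,
and the consequence for all but few residues of the window. -/
theorem result (ε : ℝ) (hε : 0 < ε) (A : ℕ) : ∃ B x₀ : ℕ, ∀ x : ℕ, x₀ ≤ x → ∀ M R Q : ℕ,
    (x : ℝ) ^ (1 / 3 + ε) ≤ R → M + R ≤ x → (Q : ℝ) ≤ x * Real.exp (-(B * Real.log (Real.log x) ^ 2)) →
    ∑ a ∈ Ioc M (M + R), total x Q a ≤ R * x / Real.log x ^ A ∧
    ∀ U : ℕ, (((Ioc M (M + R)).filter (fun a => x / Real.log x ^ U < total x Q a)).card : ℝ) ≤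
      R * (Real.log x ^ U / Real.log x ^ A) := by
  obtain ⟨e, he⟩ := exists_nat_gt (1 / ε)
  have he0 : (0 : ℝ) < e := lt_trans (by positivity) he
  have he1 : 1 ≤ e := by exact_mod_cast he0
  have hle : 1 / (e : ℝ) ≤ ε := by
    rw [div_le_iff₀ he0]
    rw [div_lt_iff₀ hε] at he
    linarith
  obtain ⟨B, N₀, h⟩ := Pool.Agent.helper24_UT.Ch.t_R33 e A he1
  refine ⟨B, max N₀ 3, fun x hx M R Q hR hMR hQ => ?_⟩
  have hx0 : N₀ ≤ x := (le_max_left _ _).trans hx
  have hx3 : 3 ≤ x := (le_max_right _ _).trans hx
  have hx1 : (1 : ℝ) ≤ x := by exact_mod_cast (by omega : 1 ≤ x)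
  have hxp : (0 : ℝ) < x := by linarith
  have hL0 : 0 < Real.log x := Real.log_pos (by exact_mod_cast (by omega : 1 < x))
  have key := h x hx0 R M Q ((Real.rpow_le_rpow_of_exponent_le hx1 (by linarith)).trans hR) hMR hQ
  have key' : ∑ a ∈ Ioc M (M + R), total x Q a ≤ R * x / Real.log x ^ A := key
  refine ⟨key', fun U => ?_⟩
  have ht : ∀ a, 0 ≤ total x Q a := fun a => sum_nonneg (fun _ _ => abs_nonneg _)
  have h1 : (((Ioc M (M + R)).filter (fun a => x / Real.log x ^ U < total x Q a)).card : ℝ) * (x / Real.log x ^ U) ≤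
      R * x / Real.log x ^ A := by
    refine le_trans ?_ key'
    rw [← nsmul_eq_mul, ← sum_const]
    refine (sum_le_sum (fun a ha => (mem_filter.1 ha).2.le)).trans ?_
    exact sum_le_sum_of_subset_of_nonneg (filter_subset _ _) (fun a _ _ => ht a)
  have h2 : 0 < (x : ℝ) / Real.log x ^ U := by positivity
  rw [← le_div_iff₀ h2] at h1
  refine h1.trans (le_of_eq ?_)
  field_simp

end Pool.Agent.Results.MP_a78e8f_nt.ShortWindowsOfResidues
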